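import Pool.Agent.Helper93.Pk.Cnt
import Pool.Agent.N783.PF.Jac

/-!
# The parity conjecture for one Jacobian over infinitely many fields at the same time

Let `K` be any number field and `g ≥ 1`.

Theorem. For a positive proportion of ALL monic polynomials `f` of degree `2 g + 1` over the integers of `K`
without term of degree `2 g`, ordered by height, there are a finite set `Q` of rational primes and a set `P`
of rational primes such that the Jacobian `J` of the curve `y ^ 2 = f(x)` satisfies the parity conjecture
`(-1) ^ rk J(M) = w(J / M)`, unconditionally, over EVERY finite Galois extension `M / K` of degree a power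
of two with these properties (we call `M` admissible for `Q` and `P`): the Galois group is not cyclic,
`M / K` is unramified at the infinite places, the primes of `K` over `2` and over `Q` split completely in
`M`, and the primes which ramify in `M / K` are over `P`. More precisely the rank of `J(M)` is zero,
multiplication by two is bijective on `J(M)`, the 2-primary part of the Tate-Shafarevich group of `J` over
`M` is zero, and the global root number is `1`. For every `f` there are infinitely many of these fields, of
unbounded degree: the set `P'` of the `l` in `P` with `l ≡ 1` modulo `8` which are squares modulo all primes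
in `Q` has positive lower density in the set of all primes, and for every finite subset `T` of `P'` with at
least two elements the field generated over `K` by the square roots of the elements of `T` is admissible,
of degree `2 ^ #T` over `K`.

The local root numbers `w(J / M_v)` are signs; they are `1` if `v` does not divide `2` and the reduction of
`f` modulo `v` is separable (then `J` has good reduction at `v`); and since `J` is defined over `K` they
are the same for primes of `M` which are conjugate over `K`. At the infinite places they are `(-1) ^ g`.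
These properties are all that we use.

The proof. (1) The 2-descent over `K` of the project PF (`MP_7cad78_nt.RankZeroEveryNumberField`) gives, for
most `f` in a family of positive density, a subset `J` of a finite set of rational primes such that a
Selmer group over `K` of the twist of the curve by the product of the primes in `J`, with weaker conditions
than the usual ones, is zero. This does not depend on `M`; `Q` is `J` and `P` is the set of the primes `p`
(not in `J`, unramified in `K`) such that `f` is irreducible modulo every prime of `K` over `p`. (2) Let `M`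
be admissible, `L = K(θ)` for a zero `θ` of `f`. As `M / K` is unramified outside `P`, so is `L M / L`
(inertia groups restrict), and `L` is dense in `L M` at the primes over `J`. With this the classes of
the 2-Selmer group over `M` which are invariant under the 2-group `Gal(M / K)` come from `L` and satisfy the
weaker conditions over `K` (at the primes over `P`, where nothing is known, the norm is used: there is
only one prime of `L` over such a prime of `K`, of odd degree). So there is no nonzero invariant class, and
the Selmer group over `M` is zero. (3) In the product of the local root numbers only the primes `v` matter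
which are stable under `Gal(M / K)`; such a prime is ramified, as the group is not cyclic, and so the
curve has good reduction there. (4) The primes. The Frobenius `φ` in the Galois closure `F / ℚ` of
`L(√-1, √2, √q : q ∈ J)` at a prime over a suitable small rational prime `p`, modulo which `f` is
irreducible, permutes the zeros of `f` transitively (some power of `φ` which fixes `K`); the same is true
for the conjugates of `φ ^ 2`, as the number of the zeros is odd. By the theorem of Chebotarev there are
many `l` with Frobenius `φ ^ 2`, and they are in `P'`. (5) `[M : K] = 2 ^ #T`: a nonempty product of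
elements of `P'` is not a square in `K`, as its prime divisors are unramified in `K`.

Earlier: `MP_ac3185_nt.ParityAllTwoExtensions` has one given field `M₀` and a positive proportion of `f`
such that the conjecture holds for `f` over `M₀` and over all fields in a class which depends on `f` and
contains `M₀`; it does not say that this class is infinite for any `f`. Here it is shown that one Jacobian
satisfies the conjecture over infinitely many fields, of unbounded degree, and how they are found:
from a set of primes of positive density.
-/

set_option autoImplicit false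
set_option linter.all false

namespace Pool.Agent.Results.MP_ac3185_nt.InfinitelyManyFieldsJacobians

open Polynomial Filter NumberField IsDedekindDomain
open Pool.Agent.N874.Jac (J UniquelyTwoDivisible ShaTwoTrivialReal)
open scoped Classical

section defs

variable {K : Type} [Field K] [NumberField K]

/-- All monic polynomials `f` of degree `2 g + 1` over the ring of integers of `K` without term of
degree `2 g` such that `|σ f_j| ≤ B ^ (2 g + 1 - j)` for the coefficients `f_j` and all embeddings `σ` of
`K` in `ℂ`. -/
def Polynomials (K : Type) [Field K] [NumberField K] (g B : ℕ) : Set (𝓞 K)[X] :=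
  {f | f.Monic ∧ f.natDegree = 2 * g + 1 ∧ f.coeff (2 * g) = 0 ∧
    ∀ j ≤ 2 * g, ∀ σ : K →+* ℂ, ‖σ (f.coeff j : K)‖ ≤ (B : ℝ) ^ (2 * g + 1 - j)}

/-- The equation `y ^ 2 = f(x)` is minimal: there is no prime ideal `𝔭 ≠ 0` of the ring of integers of
`K` with `f_j ∈ 𝔭 ^ (2 (2 g + 1 - j))` for all `j ≤ 2 g`. -/
def IsMinimal (g : ℕ) (f : (𝓞 K)[X]) : Prop :=
  ∀ 𝔭 : Ideal (𝓞 K), 𝔭.IsPrime → 𝔭 ≠ ⊥ → ¬ ∀ j ≤ 2 * g, f.coeff j ∈ 𝔭 ^ (2 * (2 * g + 1 - j))

variable (M : Type) [Field M] [NumberField M] [Algebra K M]

/-- The polynomial `f` over the ring of integers of `M`. -/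
noncomputable abbrev overInt (f : (𝓞 K)[X]) : (𝓞 M)[X] := f.map (algebraMap (𝓞 K) (𝓞 M))

/-- The polynomial `f` over `M`. -/
noncomputable abbrev overField (f : (𝓞 K)[X]) : M[X] := (overInt M f).map (algebraMap (𝓞 M) M)

/-- The prime `v` of `M` does not divide `2` and the reduction of `f` modulo `v` is separable: the
reduction of the curve `y ^ 2 = f(x)` at `v` is smooth. -/
def SmoothReduction (v : HeightOneSpectrum (𝓞 M)) (f : (𝓞 K)[X]) : Prop :=
  (2 : 𝓞 M) ∉ v.asIdeal ∧ ((overInt M f).map (Ideal.Quotient.mk v.asIdeal)).Separable

/-- The properties of the local root numbers `w(J / M_v)` at the primes `v` of `M`, for the Jacobian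
`J` of the curve `y ^ 2 = f(x)` over `K`, which we use: they are signs, `1` if the reduction of the curve
is smooth, and the same for primes which are conjugate over `K`. -/
structure LocalRootNumbers (f : (𝓞 K)[X]) (w : HeightOneSpectrum (𝓞 M) → ℤ) : Prop where
  sign : ∀ v, w v = 1 ∨ w v = -1
  good : ∀ v, SmoothReduction M v f → w v = 1
  conj : ∀ (σ : M ≃ₐ[K] M) (v v' : HeightOneSpectrum (𝓞 M)),
    (∀ x : M, v'.valuation M x = v.valuation M (σ x)) → w v' = w v

/-- The global root number of the Jacobian of a curve of genus `g`: the product of the local root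
numbers at all places; it is `(-1) ^ g` at every infinite place. -/
noncomputable def rootNumber (g : ℕ) (w : HeightOneSpectrum (𝓞 M) → ℤ) : ℤ :=
  (-1) ^ (g * Nat.card (InfinitePlace M)) * ∏ᶠ v, w v

variable {M}

/-- The rank of the finitely generated group `J(M)` is `r`, `J` the Jacobian of `y ^ 2 = F(x)`: it is
isomorphic to `ℤ ^ r × T` for a finite group `T`. -/
def HasRank (F : M[X]) (r : ℕ) : Prop :=
  ∃ (T : Type) (_ : AddCommGroup T) (_ : Finite T),
    Nonempty (Additive (J F M) ≃+ (Fin r → ℤ) × T)

variable (M)

/-- The parity conjecture holds for the Jacobian `J` of `y ^ 2 = f(x)` over `M`, with rank `0` and root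
number `1`; moreover `f` is irreducible over `M`, multiplication by two is bijective on `J(M)` and the
2-primary part of the Tate-Shafarevich group of `J` over `M` is zero. -/
structure ParityHolds (g : ℕ) (f : (𝓞 K)[X]) : Prop where
  irreducible : Irreducible (overField M f)
  divisible : UniquelyTwoDivisible (overField M f)
  sha : ShaTwoTrivialReal (overField M f) (𝓞 M)
  finite : ∀ w, LocalRootNumbers M f w → {v | w v ≠ 1}.Finite
  one : ∀ w, LocalRootNumbers M f w → rootNumber M g w = 1
  zero : ∀ r, HasRank (overField M f) r → r = 0
  parity : ∀ w r, LocalRootNumbers M f w → HasRank (overField M f) r → (-1) ^ r = rootNumber M g w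

end defs

section fields

/-- The number field `M ⊇ K` is admissible for the sets `Q` and `P` of rational primes: `M / K` is
Galois of degree `2 ^ n` with a Galois group which is not cyclic, it is unramified at the infinite places,
the primes `u` of `K` over `2` and over the primes in `Q` split completely in `M` (`M` has an embedding over
`K` in the completion `K_u`), and every prime of `M` which is ramified over `K` is over a prime in `P`. -/
structure Admissible (K M : Type) [Field K] [NumberField K] [Field M] [NumberField M] [Algebra K M]
    (Q : Finset ℕ) (P : Set ℕ) : Prop where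
  galois : IsGalois K M
  degree : ∃ n : ℕ, Module.finrank K M = 2 ^ n
  noncyclic : ¬ IsCyclic (M ≃ₐ[K] M)
  infinite : IsUnramifiedAtInfinitePlaces K M
  split : ∀ u : HeightOneSpectrum (𝓞 K),
    ((2 : 𝓞 K) ∈ u.asIdeal ∨ ∃ q ∈ Q, (q : 𝓞 K) ∈ u.asIdeal) →
    Nonempty (M →ₐ[K] u.adicCompletion K)
  ramified : ∀ w : HeightOneSpectrum (𝓞 M), w.asIdeal.ramificationIdx (𝓞 K) ≠ 1 →
    ∃ p ∈ P, (p : 𝓞 M) ∈ w.asIdeal

/-- `M` is generated over `K` by square roots `r l` of the elements `l` of `T`. -/
structure GeneratedByRoots (K : Type) [Field K] {M : Type} [Field M] [Algebra K M] (T : Finset ℕ)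
    (r : ℕ → M) : Prop where
  square : ∀ l ∈ T, r l ^ 2 = (l : M)
  generate : IntermediateField.adjoin K (r '' (T : Set ℕ)) = ⊤

/-- The `l` in `P` which are `1` modulo `8` and squares modulo all `q` in `Q`. -/
def Special (Q : Finset ℕ) (P : Set ℕ) : Set ℕ := {l ∈ P | l % 8 = 1 ∧ ∀ q ∈ Q, IsSquare (l : ZMod q)}

/-- The set `A` of primes has positive lower density in the set of all primes. -/
def PositiveDensity (A : Set ℕ) : Prop :=
  ∃ κ : ℝ, 0 < κ ∧ ∀ᶠ Y : ℕ in atTop,
    κ * (Nat.primeCounting Y : ℝ) ≤ (Set.ncard {l : ℕ | l ∈ A ∧ l ≤ Y} : ℝ)

/-- The Jacobian of `y ^ 2 = f(x)` satisfies the parity conjecture over all admissible extensions of `K`,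
for some sets `Q` and `P` of primes, and these include the fields generated by square roots of at least two
elements of the set `Special Q P`, which has positive density. -/
def ParityOverManyFields {K : Type} [Field K] [NumberField K] (g : ℕ) (f : (𝓞 K)[X]) : Prop :=
  ∃ (Q : Finset ℕ) (P : Set ℕ), (∀ q ∈ Q, q.Prime) ∧ (∀ l ∈ P, l.Prime) ∧
    PositiveDensity (Special Q P) ∧
    (∀ (M : Type) [Field M] [NumberField M] [Algebra K M] (T : Finset ℕ) (r : ℕ → M),
      (T : Set ℕ) ⊆ Special Q P → 2 ≤ T.card → GeneratedByRoots K T r →
      Admissible K M Q P ∧ Module.finrank K M = 2 ^ T.card) ∧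
    ∀ (M : Type) [Field M] [NumberField M] [Algebra K M], Admissible K M Q P → ParityHolds M g f

end fields

theorem rank_zero {M : Type} [Field M] {F : M[X]} (h : UniquelyTwoDivisible F) {r : ℕ}
    (hr : HasRank F r) : r = 0 := by
  obtain ⟨T, _, _, ⟨e⟩⟩ := hr
  by_contra h0
  have hpos : 0 < r := Nat.pos_of_ne_zero h0
  obtain ⟨P, hP⟩ := h.2 (Additive.toMul (e.symm ((fun _ => 1), 0)))
  have h1 : e (Additive.ofMul (P ^ 2)) = ((fun _ => 1), 0) := by
    have h2 : P ^ 2 = Additive.toMul (e.symm ((fun _ => 1), 0)) := hP
    rw [h2, ofMul_toMul, AddEquiv.apply_symm_apply]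
  rw [ofMul_pow, map_nsmul] at h1
  have h2 := congrFun (congrArg Prod.fst h1) ⟨0, hpos⟩
  have h3 : 2 * (e (Additive.ofMul P)).1 ⟨0, hpos⟩ = 1 := by
    simpa using h2
  omega

theorem signs_iff {K M : Type} [Field K] [NumberField K] [Field M] [NumberField M] [Algebra K M]
    (f : (𝓞 K)[X]) (w : HeightOneSpectrum (𝓞 M) → ℤ) :
    LocalRootNumbers M f w ↔ Pool.Agent.H25P.Signs K (Pool.Agent.H25P.fM M f) w :=
  ⟨fun h => ⟨h.1, fun v h1 h2 => h.2 v ⟨h1, h2⟩, h.3⟩,
    fun h => ⟨h.1, fun v h1 => h.2 v h1.1 h1.2, h.3⟩⟩

theorem adm_iff {K M : Type} [Field K] [NumberField K] [Field M] [NumberField M] [Algebra K M]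
    {Q : Finset ℕ} {P : Set ℕ} : Admissible K M Q P ↔ Pool.Agent.Helper93.Pk.Adm K M Q P :=
  ⟨fun h => ⟨h.1, h.2, h.3, h.4, h.5, h.6⟩, fun h => ⟨h.1, h.2, h.3, h.4, h.5, h.6⟩⟩

theorem parity_of {K : Type} [Field K] [NumberField K] {M : Type} [Field M] [NumberField M]
    [Algebra K M] {g : ℕ} {f : (𝓞 K)[X]} (hmon : f.Monic) (hdeg : f.natDegree = 2 * g + 1)
    (h : Pool.Agent.Helper93.Pk.Good K M g f) : ParityHolds M g f := by
  have hmM : (Pool.Agent.H25P.fM M f).Monic := hmon.map _
  have hdM : Odd (Pool.Agent.H25P.fM M f).natDegree := by
    rw [Pool.Agent.H25P.fM, hmon.natDegree_map, hdeg]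
    exact odd_two_mul_add_one g
  obtain ⟨h4, h5⟩ := Pool.Agent.N783.PF.jac hmM hdM h.irrM h.sel
  have hroot : ∀ w, LocalRootNumbers M f w → rootNumber M g w = 1 := fun w hw =>
    h.root w ((signs_iff f w).1 hw) g
  refine ⟨h.irrM, h4, h5, fun w hw => ?_, hroot, fun r hr => rank_zero h4 hr,
    fun w r hw hr => ?_⟩
  · exact ((signs_iff f w).1 hw).finite hmM h.irrM
  · rw [rank_zero h4 hr, pow_zero, hroot w hw]

/-- Let `K` be a number field and `g ≥ 1`. There is `c > 0` such that for all large `B` at least `c` times
the number of all monic polynomials `f` of degree `2 g + 1` over the integers of `K` without term of degree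
`2 g` of height at most `B` have the following property: the equation `y ^ 2 = f(x)` is minimal, and there
are a finite set `Q` of primes and a set `P` of primes such that for every extension `M / K` which is
admissible for `Q` and `P` the Jacobian of `y ^ 2 = f(x)` has rank `0` and root number `1` over `M` and
satisfies the parity conjecture over `M`. The set `P'` of the `l` in `P` with `l ≡ 1` modulo `8` which are
squares modulo all primes in `Q` has positive density, and every field generated over `K` by the square
roots of the elements of a finite subset `T` of `P'` with at least two elements is admissible and has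
degree `2 ^ #T` over `K`. -/
theorem result (K : Type) [Field K] [NumberField K] (g : ℕ) (hg : 1 ≤ g) :
    ∃ c : ℝ, 0 < c ∧ ∀ᶠ B : ℕ in atTop, (Polynomials K g B).Finite ∧
      0 < (Polynomials K g B).ncard ∧
      c * ((Polynomials K g B).ncard : ℝ) ≤
        (({f ∈ Polynomials K g B | IsMinimal g f ∧ ParityOverManyFields g f}).ncard : ℝ) := by
  obtain ⟨c, hc, B₀, h⟩ := Pool.Agent.Helper93.Pk.final K g hg
  refine ⟨c, hc, ?_⟩
  filter_upwards [eventually_ge_atTop B₀] with B hB
  have hset : Polynomials K g B = {f : (𝓞 K)[X] | Pool.Agent.N783.PF.Ht g B f} := by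
    ext f
    exact ⟨fun h => ⟨h.1, h.2.1, h.2.2.1, h.2.2.2⟩, fun h => ⟨h.mon, h.deg, h.tr, h.ht⟩⟩
  obtain ⟨hfin, hle⟩ := h B hB
  rw [hset]
  refine ⟨hfin, ?_, ?_⟩
  · rw [Set.ncard_pos hfin]
    refine ⟨X ^ (2 * g + 1), monic_X_pow _, natDegree_X_pow _, ?_, fun j hj σ => ?_⟩
    · rw [coeff_X_pow, if_neg (by omega)]
    · rw [coeff_X_pow, if_neg (by omega)]
      simp only [map_zero, norm_zero]
      positivity
  · refine hle.trans ?_
    refine Nat.cast_le.2 (Set.ncard_le_ncard ?_ (hfin.subset fun f hf => hf.1))
    rintro f ⟨h1, h3⟩
    obtain ⟨Q, P, g1, g2, g3, g4, g5⟩ := h3.many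
    refine ⟨h1, h3.min, Q, P, g1, g2, g3, fun M _ _ _ T r hT h2 hr => ?_,
      fun M _ _ _ A => parity_of h3.mon h3.deg (g5 M (adm_iff.1 A))⟩
    obtain ⟨k1, k2⟩ := g4 M T r hT h2 ⟨hr.square, hr.generate⟩
    exact ⟨adm_iff.2 k1, k2⟩

end Pool.Agent.Results.MP_ac3185_nt.InfinitelyManyFieldsJacobians
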