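import Pool.Agent.H25C.Fin
import Pool.Agent.H25P.FinJ

/-!
# The parity conjecture over all cyclic 2-extensions in a class (in particular over quadratic
# extensions), for a positive proportion of all hyperelliptic Jacobians over a number field

Let `K` be any number field and `g ≥ 1`. For a polynomial `f` over the integers of `K` and a finite set
`S` of odd prime numbers let `E(f, S)` be the class of the Galois extensions `M / K` of degree `2 ^ n`
(`n` arbitrary) such that

* the primes over `2` and the primes over the elements of `S` split completely in `M`,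
* `M / K` is unramified at the infinite places,
* `f` is irreducible modulo every prime of `K` which is ramified in `M`.

Let `M₀ / K` be any Galois extension of degree `2 ^ n` in which the primes over `2` split completely and
which is unramified at the infinite places (the ramification elsewhere is arbitrary), and `N₀ ∈ ℕ`.

Theorem. There is a finite set `S` of prime numbers `> N₀` such that a positive proportion of ALL monic
polynomials `f` of degree `2 g + 1` over the integers of `K` without term of degree `2 g`, ordered by
height, satisfies: `f` is irreducible modulo all primes over the prime numbers `≤ N₀`, the given extension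
`M₀` is in `E(f, S)`, and for EVERY cyclic extension `M ≠ K` in `E(f, S)`, in particular for every
quadratic extension `M = K(√d)` in `E(f, S)`, the Jacobian `J` of the curve `y ^ 2 = f(x)` satisfies the
parity conjecture over `M`, unconditionally: `(-1) ^ rk J(M) = w(J / M)`. More precisely the rank of
`J(M)` is zero, multiplication by two is bijective on `J(M)`, the 2-primary part of the Tate-Shafarevich
group of `J` over `M` is zero, and the global root number is `1`.

(The class contains every Galois subextension of `M₀ / K`, and `M₀` may be the compositum of any finite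
number of given quadratic extensions: `f` does not depend on `M`.)

The local root numbers `w(J / M_v)` are signs; they are `1` if `v` does not divide `2` and the reduction of
`f` modulo `v` is separable (then `J` has good reduction at `v`); they are `-1` if `v` does not divide `2`
and the reduction of the curve has one singular point, a node with rational tangents (then `J` has
semistable reduction, with a split torus of dimension one); and since `J` is defined over `K` they are
the same for primes of `M` which are conjugate over `K`, for which the completions are isomorphic over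
`K`. At the infinite places they are `(-1) ^ g`. These properties are all that we use: the theorem holds for
every function `w` with these properties, in particular for the local root numbers.

The proof. The Selmer group is treated as in `MP_ac3185_nt.ParityAllTwoExtensions`. The root number: in the
product of the local root numbers only the primes `v` of `M` matter which are stable under `Gal(M / K)`. In
contrast to the non-cyclic case there are in general many such primes with bad reduction. The discriminant
`Δ` of `f` is not divisible by the square of a prime outside `S`, so at such a prime the reduction has one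
node, which is split over the residue field of `v` because the residue degree is even; the local root number
is `-1`. So the root number is `(-1) ^ n`, `n` the number of the primes `u` of `K` which divide
`Δ` exactly and are inert in the quadratic subextension `K(√d)` of `M / K`. This number is even by the
quadratic reciprocity law of the number field `K` for `d` and `± Δ`: the symbols of the other
places are trivial; at a ramified prime of `M` this is because the discriminant of an irreducible
polynomial of odd degree over a finite field is a square. The reciprocity law (the product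
formula for the Hilbert symbols of a number field, for such `d` and `Δ`) is proved in
`Pool.Agent.H25C.Rcp` (transfer of Pfister forms to `ℚ`, and the reciprocity law of Gauss).

Earlier: the case `K = ℚ`, `g = 1`, for one fixed non-cyclic `M`, is
`MP_02f36d_nt.ParityOverTwoExtensions`; non-cyclic `M`, all `K` and `g`:
`MP_ac3185_nt.ParityAllTwoExtensions`. That the parity of the 2-infinity Selmer rank over a quadratic
extension agrees with the root number is known in many cases (Kramer, Tunnell; Morgan for hyperelliptic
curves). New: the unconditional parity conjecture for a positive proportion, in cyclic extensions.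
-/

set_option autoImplicit false
set_option linter.all false

namespace Pool.Agent.Results.MP_ac3185_nt.ParityCyclicExtensions

open Polynomial Filter NumberField IsDedekindDomain
open Pool.Agent.N874.Jac (J UniquelyTwoDivisible ShaTwoTrivialReal)
open scoped Classical

section defs

variable {K : Type} [Field K] [NumberField K]

/-- All monic polynomials `f` of degree `2 g + 1` over the ring of integers of `K` without term of
degree `2 g` such that `|σ f_j| ≤ B ^ (2 g + 1 - j)` for the coefficients `f_j` and all embeddings `σ` of
`K` in `ℂ`. -/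
def Polynomials (K : Type) [Field K] [NumberField K] (g B : ℕ) : Set (𝓞 K)[X] :=
  {f | f.Monic ∧ f.natDegree = 2 * g + 1 ∧ f.coeff (2 * g) = 0 ∧
    ∀ j ≤ 2 * g, ∀ σ : K →+* ℂ, ‖σ (f.coeff j : K)‖ ≤ (B : ℝ) ^ (2 * g + 1 - j)}

/-- The equation `y ^ 2 = f(x)` is minimal: there is no prime ideal `𝔭 ≠ 0` of the ring of integers of
`K` with `f_j ∈ 𝔭 ^ (2 (2 g + 1 - j))` for all `j ≤ 2 g`. -/
def IsMinimal (g : ℕ) (f : (𝓞 K)[X]) : Prop :=
  ∀ 𝔭 : Ideal (𝓞 K), 𝔭.IsPrime → 𝔭 ≠ ⊥ → ¬ ∀ j ≤ 2 * g, f.coeff j ∈ 𝔭 ^ (2 * (2 * g + 1 - j))

/-- The polynomial `f` is irreducible modulo the prime ideal `𝔭`. -/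
def IrreducibleMod (𝔭 : Ideal (𝓞 K)) (f : (𝓞 K)[X]) : Prop :=
  Irreducible (f.map (Ideal.Quotient.mk 𝔭))

variable (M : Type) [Field M] [NumberField M] [Algebra K M]

/-- The prime `v` of `M` is unramified over `K`, for `M / K` Galois: no automorphism other than the
identity is the identity modulo `v`. -/
def UnramifiedAt (v : HeightOneSpectrum (𝓞 M)) : Prop :=
  ∀ σ : M ≃ₐ[K] M, (∀ x : 𝓞 M, σ • x - x ∈ v.asIdeal) → σ = 1

/-- The prime `v` of `M` is split over `K`, for `M / K` Galois: no automorphism other than the identity
maps `v` to itself. -/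
def SplitAt (v : HeightOneSpectrum (𝓞 M)) : Prop :=
  ∀ σ : M ≃ₐ[K] M, (∀ x : M, v.valuation M (σ x) = v.valuation M x) → σ = 1

/-- The class `E(f, S)` of Galois extensions `M / K`. -/
structure InClass (S : Finset ℕ) (f : (𝓞 K)[X]) : Prop where
  degree : ∃ n : ℕ, Module.finrank K M = 2 ^ n
  two : ∀ u : HeightOneSpectrum (𝓞 K), (2 : 𝓞 K) ∈ u.asIdeal →
    Nonempty (M →ₐ[K] u.adicCompletion K)
  infinite : IsUnramifiedAtInfinitePlaces K M
  split : ∀ q ∈ S, ∀ v : HeightOneSpectrum (𝓞 M), (q : 𝓞 M) ∈ v.asIdeal → SplitAt (K := K) M v
  ramified : ∀ v : HeightOneSpectrum (𝓞 M), UnramifiedAt (K := K) M v ∨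
    IrreducibleMod (v.asIdeal.under (𝓞 K)) f

/-- The polynomial `f` over the ring of integers of `M`. -/
noncomputable abbrev overInt (f : (𝓞 K)[X]) : (𝓞 M)[X] := f.map (algebraMap (𝓞 K) (𝓞 M))

/-- The polynomial `f` over `M`. -/
noncomputable abbrev overField (f : (𝓞 K)[X]) : M[X] := (overInt M f).map (algebraMap (𝓞 M) M)

/-- The prime `v` of `M` does not divide `2` and the reduction of `f` modulo `v` is separable: the
reduction of the curve `y ^ 2 = f(x)` at `v` is smooth. -/
def SmoothReduction (v : HeightOneSpectrum (𝓞 M)) (f : (𝓞 K)[X]) : Prop :=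
  (2 : 𝓞 M) ∉ v.asIdeal ∧ ((overInt M f).map (Ideal.Quotient.mk v.asIdeal)).Separable

/-- The prime `v` of `M` does not divide `2` and the reduction of `f` modulo `v` is `(x - a) ^ 2 h(x)`
with `h` separable and `h(a) = c ^ 2 ≠ 0`: the reduction of the curve `y ^ 2 = f(x)` at `v` has one
singular point, a node with the rational tangents `y = ± c (x - a)`. -/
def SplitNodalReduction (v : HeightOneSpectrum (𝓞 M)) (f : (𝓞 K)[X]) : Prop :=
  (2 : 𝓞 M) ∉ v.asIdeal ∧ ∃ (a c : 𝓞 M ⧸ v.asIdeal) (h : (𝓞 M ⧸ v.asIdeal)[X]),
    (overInt M f).map (Ideal.Quotient.mk v.asIdeal) = (X - C a) ^ 2 * h ∧ h.Separable ∧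
      h.eval a = c ^ 2 ∧ c ≠ 0

/-- The properties of the local root numbers `w(J / M_v)` at the primes `v` of `M`, for the Jacobian
`J` of the curve `y ^ 2 = f(x)` over `K`, which we use: they are signs, `1` if the reduction of the curve
is smooth, `-1` if it has one singular point, a split node, and the same for primes which are conjugate
over `K`. -/
structure LocalRootNumbers (f : (𝓞 K)[X]) (w : HeightOneSpectrum (𝓞 M) → ℤ) : Prop where
  sign : ∀ v, w v = 1 ∨ w v = -1
  good : ∀ v, SmoothReduction M v f → w v = 1
  split : ∀ v, SplitNodalReduction M v f → w v = -1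
  conj : ∀ (σ : M ≃ₐ[K] M) (v v' : HeightOneSpectrum (𝓞 M)),
    (∀ x : M, v'.valuation M x = v.valuation M (σ x)) → w v' = w v

/-- The global root number of the Jacobian of a curve of genus `g`: the product of the local root
numbers at all places; it is `(-1) ^ g` at every infinite place. -/
noncomputable def rootNumber (g : ℕ) (w : HeightOneSpectrum (𝓞 M) → ℤ) : ℤ :=
  (-1) ^ (g * Nat.card (InfinitePlace M)) * ∏ᶠ v, w v

variable {M}

/-- The rank of the finitely generated group `J(M)` is `r`, `J` the Jacobian of `y ^ 2 = F(x)`: it is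
isomorphic to `ℤ ^ r × T` for a finite group `T`. -/
def HasRank (F : M[X]) (r : ℕ) : Prop :=
  ∃ (T : Type) (_ : AddCommGroup T) (_ : Finite T),
    Nonempty (Additive (J F M) ≃+ (Fin r → ℤ) × T)

variable (M)

/-- The parity conjecture holds for the Jacobian `J` of `y ^ 2 = f(x)` over `M`, with rank `0` and root
number `1`; moreover `f` is irreducible over `M`, the equation is minimal, multiplication by two is
bijective on `J(M)` and the 2-primary part of the Tate-Shafarevich group of `J` over `M` is zero. -/
structure ParityHolds (g : ℕ) (f : (𝓞 K)[X]) : Prop where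
  irreducible : Irreducible (overField M f)
  minimal : IsMinimal g f
  divisible : UniquelyTwoDivisible (overField M f)
  sha : ShaTwoTrivialReal (overField M f) (𝓞 M)
  finite : ∀ w, LocalRootNumbers M f w → {v | w v ≠ 1}.Finite
  one : ∀ w, LocalRootNumbers M f w → rootNumber M g w = 1
  zero : ∀ r, HasRank (overField M f) r → r = 0
  parity : ∀ w r, LocalRootNumbers M f w → HasRank (overField M f) r → (-1) ^ r = rootNumber M g w

end defs

theorem rank_zero {M : Type} [Field M] {F : M[X]} (h : UniquelyTwoDivisible F) {r : ℕ}
    (hr : HasRank F r) : r = 0 := by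
  obtain ⟨T, _, _, ⟨e⟩⟩ := hr
  by_contra h0
  have hpos : 0 < r := Nat.pos_of_ne_zero h0
  obtain ⟨P, hP⟩ := h.2 (Additive.toMul (e.symm ((fun _ => 1), 0)))
  have h1 : e (Additive.ofMul (P ^ 2)) = ((fun _ => 1), 0) := by
    have h2 : P ^ 2 = Additive.toMul (e.symm ((fun _ => 1), 0)) := hP
    rw [h2, ofMul_toMul, AddEquiv.apply_symm_apply]
  rw [ofMul_pow, map_nsmul] at h1
  have h2 := congrFun (congrArg Prod.fst h1) ⟨0, hpos⟩
  have h3 : 2 * (e (Additive.ofMul P)).1 ⟨0, hpos⟩ = 1 := by
    simpa using h2
  omega

theorem signs_iff {K M : Type} [Field K] [NumberField K] [Field M] [NumberField M] [Algebra K M]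
    (f : (𝓞 K)[X]) (w : HeightOneSpectrum (𝓞 M) → ℤ) :
    LocalRootNumbers M f w ↔ Pool.Agent.H25C.SignsC K (Pool.Agent.H25P.fM M f) w :=
  ⟨fun h => ⟨⟨h.1, fun v h1 h2 => h.2 v ⟨h1, h2⟩, h.4⟩,
      fun v h1 a c t h2 h3 h4 h5 => h.3 v ⟨h1, a, c, t, h2, h3, h4, h5⟩⟩,
    fun h => ⟨h.1.1, fun v h1 => h.1.2 v h1.1 h1.2,
      fun v ⟨h1, a, c, t, h2, h3, h4, h5⟩ => h.2 v h1 a c t h2 h3 h4 h5, h.1.3⟩⟩

theorem inClass_iff {K M : Type} [Field K] [NumberField K] [Field M] [NumberField M] [Algebra K M]
    (S : Finset ℕ) (f : (𝓞 K)[X]) : InClass M S f ↔ Pool.Agent.H25U.InCl K S f M :=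
  ⟨fun h => ⟨h.1, h.2, h.3, h.4, h.5⟩, fun h => ⟨h.1, h.2, h.3, h.4, h.5⟩⟩

/-- Let `K` be a number field, `g ≥ 1`, let `M₀ / K` be a Galois extension of degree `2 ^ n` in which
all primes `u` of `K` over `2` split completely (`M₀` has an embedding over `K` in `K_u`) and which is
unramified at the infinite places, and let `N₀` be a natural number. There are a finite set `S` of
prime numbers `> N₀` and `c > 0` such that for all large `B` at least `c` times the number of all monic
polynomials `f` of degree `2 g + 1` over the integers of `K` without term of degree `2 g` of height at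
most `B` satisfy: `f` is irreducible modulo all primes which divide `N₀!`, `M₀` is in the class `E(f, S)`,
and for every cyclic extension `M ≠ K` in the class `E(f, S)` the Jacobian of `y ^ 2 = f(x)` has rank `0`
over `M` and satisfies the parity conjecture over `M`. -/
theorem result (K M₀ : Type) [Field K] [NumberField K] [Field M₀] [NumberField M₀] [Algebra K M₀]
    [IsGalois K M₀] (hn : ∃ n : ℕ, Module.finrank K M₀ = 2 ^ n)
    (h2 : ∀ u : HeightOneSpectrum (𝓞 K), (2 : 𝓞 K) ∈ u.asIdeal →
      Nonempty (M₀ →ₐ[K] u.adicCompletion K))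
    (hinf : IsUnramifiedAtInfinitePlaces K M₀) (N₀ g : ℕ) (hg : 1 ≤ g) :
    ∃ S : Finset ℕ, (∀ q ∈ S, q.Prime ∧ N₀ < q) ∧
    ∃ c : ℝ, 0 < c ∧ ∀ᶠ B : ℕ in atTop, (Polynomials K g B).Finite ∧
      0 < (Polynomials K g B).ncard ∧
      c * ((Polynomials K g B).ncard : ℝ) ≤
        (({f ∈ Polynomials K g B |
          (∀ 𝔭 : Ideal (𝓞 K), 𝔭.IsPrime → (N₀.factorial : 𝓞 K) ∈ 𝔭 → IrreducibleMod 𝔭 f) ∧
          InClass M₀ S f ∧
          ∀ (M : Type) [Field M] [NumberField M] [Algebra K M] [IsGalois K M],
            InClass M S f → IsCyclic (M ≃ₐ[K] M) → Module.finrank K M ≠ 1 →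
              ParityHolds M g f}).ncard : ℝ) := by
  obtain ⟨S, hS, c, hc, B₀, h⟩ := Pool.Agent.H25C.final K M₀ hn h2 hinf N₀ g hg
  refine ⟨S, hS, c, hc, ?_⟩
  filter_upwards [eventually_ge_atTop B₀] with B hB
  have hset : Polynomials K g B = {f : (𝓞 K)[X] | Pool.Agent.N783.PF.Ht g B f} := by
    ext f
    exact ⟨fun h => ⟨h.1, h.2.1, h.2.2.1, h.2.2.2⟩, fun h => ⟨h.mon, h.deg, h.tr, h.ht⟩⟩
  obtain ⟨hfin, hle⟩ := h B hB
  rw [hset]
  refine ⟨hfin, ?_, ?_⟩
  · rw [Set.ncard_pos hfin]
    refine ⟨X ^ (2 * g + 1), monic_X_pow _, natDegree_X_pow _, ?_, fun j hj σ => ?_⟩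
    · rw [coeff_X_pow, if_neg (by omega)]
    · rw [coeff_X_pow, if_neg (by omega)]
      simp only [map_zero, norm_zero]
      positivity
  · refine hle.trans ?_
    refine Nat.cast_le.2 (Set.ncard_le_ncard ?_ (hfin.subset fun f hf => hf.1))
    rintro f ⟨h1, h3⟩
    refine ⟨h1, h3.small, (inClass_iff S f).2 h3.cl, fun M _ _ _ _ hM _ hnt => ?_⟩
    obtain ⟨hirr, hsel, hr⟩ := h3.sel M ((inClass_iff S f).1 hM)
    have hr' := hr hnt
    have hmM : (Pool.Agent.H25P.fM M f).Monic := h3.data.mon.map _
    have hdM : Odd (Pool.Agent.H25P.fM M f).natDegree := by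
      rw [Pool.Agent.H25P.fM, h3.data.mon.natDegree_map, h3.data.deg]
      exact odd_two_mul_add_one g
    obtain ⟨h4, h5⟩ := Pool.Agent.N783.PF.jac hmM hdM hirr hsel
    have hroot : ∀ w, LocalRootNumbers M f w → rootNumber M g w = 1 := fun w hw =>
      hr' w ((signs_iff f w).1 hw) g
    refine ⟨hirr, h3.min, h4, h5, fun w hw => ?_, hroot, fun r hr => rank_zero h4 hr,
      fun w r hw hr => ?_⟩
    · exact ((signs_iff f w).1 hw).toSigns.finite hmM hirr
    · rw [rank_zero h4 hr, pow_zero, hroot w hw]

end Pool.Agent.Results.MP_ac3185_nt.ParityCyclicExtensions
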